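import Pool.Agent.H870R4.Noz.Stmts

/-!
# Project H870-NOZ, TaskMass: there is a width with mass 1
-/

set_option autoImplicit false

open MeasureTheory Set

namespace H454R3.Noz

open H870N

theorem rect_open (a b h : ℝ) : IsOpen (rect a b h) := by
  have h0 : Continuous fun u : E2 => u 0 := by fun_prop
  have h1 : Continuous fun u : E2 => |u 1| := by fun_prop
  have e : rect a b h = {u : E2 | a < u 0} ∩ ({u : E2 | u 0 < b} ∩ {u : E2 | |u 1| < h}) := by
    ext u
    rfl
  rw [e]
  exact (isOpen_lt continuous_const h0).inter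
    ((isOpen_lt h0 continuous_const).inter (isOpen_lt h1 continuous_const))

theorem vol_rect (a b h : ℝ) :
    volume (rect a b h) = ENNReal.ofReal (b - a) * ENNReal.ofReal (2 * h) := by
  have hmp := EuclideanSpace.volume_preserving_symm_measurableEquiv_toLp (Fin 2)
  have e : rect a b h = (MeasurableEquiv.toLp 2 (Fin 2 → ℝ)).symm ⁻¹'
      (Set.pi Set.univ fun i => Ioo ((![a, -h] : Fin 2 → ℝ) i) ((![b, h] : Fin 2 → ℝ) i)) := by
    ext u
    simp only [rect, Set.mem_ofPred_eq, Set.mem_preimage, Set.mem_pi, Set.mem_univ, true_implies,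
      Fin.forall_fin_two, Matrix.cons_val_zero, Matrix.cons_val_one, Set.mem_Ioo, abs_lt]
    constructor
    · rintro ⟨h1, h2, h3, h4⟩
      exact ⟨⟨h1, h2⟩, h3, h4⟩
    · rintro ⟨⟨h1, h2⟩, h3, h4⟩
      exact ⟨h1, h2, h3, h4⟩
  rw [e, hmp.measure_preimage_equiv, Real.volume_pi_Ioo, Fin.prod_univ_two]
  simp only [Matrix.cons_val_zero, Matrix.cons_val_one]
  congr 2
  ring

theorem taskMass : TaskMass := by
  intro V L R h0 cL cR lm lp hL hlm hc hcR hlp hh0 hV hV2 hbig
  set F : E2 → ℝ := fun u => 1 / V u ^ 2 with hF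
  set hb : ℝ := 2 / (cR - cL) with hhb
  have hcc : 0 < cR - cL := by linarith
  have hb0 : 0 < hb := by positivity
  have hbh : hb < h0 := by
    rw [hhb, div_lt_iff₀ hcc]
    nlinarith
  -- the compact rectangle
  have hKc : IsCompact {u : E2 | lm ≤ u 0 ∧ u 0 ≤ lp ∧ |u 1| ≤ hb} := by
    have c0 : Continuous fun u : E2 => u 0 := by fun_prop
    have c1 : Continuous fun u : E2 => |u 1| := by fun_prop
    refine Metric.isCompact_of_isClosed_isBounded ?_ ?_
    · exact (isClosed_le continuous_const c0).inter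
        ((isClosed_le c0 continuous_const).inter (isClosed_le c1 continuous_const))
    · rw [isBounded_iff_forall_norm_le]
      refine ⟨(|lm| + |lp|) + hb, fun u hu => ?_⟩
      obtain ⟨h1, h2, h3⟩ := hu
      have e1 : |u 0| ≤ |lm| + |lp| := by
        rw [abs_le]
        constructor
        · have := neg_abs_le lm
          have := abs_nonneg lp
          linarith
        · have := le_abs_self lp
          have := abs_nonneg lm
          linarith
      have e2 : ‖u‖ ≤ |u 0| + |u 1| := by
        rw [EuclideanSpace.norm_eq, Fin.sum_univ_two, Real.norm_eq_abs, Real.norm_eq_abs]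
        rw [Real.sqrt_le_left (by positivity)]
        nlinarith [abs_nonneg (u 0), abs_nonneg (u 1), mul_nonneg (abs_nonneg (u 0)) (abs_nonneg (u 1))]
      linarith
  set K : Set E2 := {u : E2 | lm ≤ u 0 ∧ u 0 ≤ lp ∧ |u 1| ≤ hb} with hK
  have hKs : K ⊆ rect L R h0 := by
    rintro u ⟨h1, h2, h3⟩
    exact ⟨by linarith, by linarith, by linarith⟩
  have hFc : ContinuousOn F K := by
    refine ContinuousOn.div continuousOn_const ((hV.mono hKs).pow 2) fun u hu => ?_
    exact pow_ne_zero _ (hV2 u (hKs hu)).1.ne'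
  obtain ⟨C, hC⟩ := hKc.exists_bound_of_continuousOn hFc
  have hFi : IntegrableOn F K := hFc.integrableOn_compact hKc
  have hsub : ∀ h, h ≤ hb → rect lm lp h ⊆ K := by
    rintro h hh u ⟨h1, h2, h3⟩
    exact ⟨h1.le, h2.le, h3.le.trans hh⟩
  have hmono : ∀ h h', h ≤ h' → rect lm lp h ⊆ rect lm lp h' := by
    rintro h h' hh u ⟨h1, h2, h3⟩
    exact ⟨h1, h2, lt_of_lt_of_le h3 hh⟩
  have hfin : ∀ h, volume (rect lm lp h) ≠ ⊤ := by
    intro h
    rw [vol_rect]
    exact ENNReal.mul_ne_top ENNReal.ofReal_ne_top ENNReal.ofReal_ne_top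
  have hreal : ∀ h, 0 ≤ h → volume.real (rect lm lp h) = (lp - lm) * (2 * h) := by
    intro h hh
    rw [Measure.real, vol_rect, ENNReal.toReal_mul, ENNReal.toReal_ofReal (by linarith),
      ENNReal.toReal_ofReal (by linarith)]
  set g : ℝ → ℝ := fun h => ∫ u in rect lm lp h, F u with hg
  have hlip : ∀ h h', 0 ≤ h → h ≤ h' → h' ≤ hb →
      |g h' - g h| ≤ C * ((lp - lm) * (2 * (h' - h))) := by
    intro h h' hh hhh hh'
    have hd : g h' - g h = ∫ u in rect lm lp h' \ rect lm lp h, F u := by
      rw [setIntegral_sdiff (rect_open _ _ _).measurableSet (hFi.mono_set (hsub h' hh'))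
        (hmono h h' hhh)]
    rw [hd, ← Real.norm_eq_abs]
    have hlt : volume (rect lm lp h' \ rect lm lp h) < ⊤ :=
      lt_of_le_of_lt (measure_mono sdiff_subset) (lt_top_iff_ne_top.2 (hfin h'))
    have h1 := norm_setIntegral_le_of_norm_le_const (f := F) (C := C) hlt
      (fun u hu => hC u (hsub h' hh' hu.1))
    have h2 : volume.real (rect lm lp h' \ rect lm lp h) = (lp - lm) * (2 * (h' - h)) := by
      rw [measureReal_sdiff (hmono h h' hhh) (rect_open _ _ _).measurableSet (hfin h'),
        hreal h hh, hreal h' (hh.trans hhh)]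
      ring
    rwa [h2] at h1
  have hC0 : 0 ≤ C := by
    have hmem : (WithLp.toLp 2 ![lm, 0] : E2) ∈ K := by
      refine ⟨?_, ?_, ?_⟩ <;> simp <;> linarith
    exact (norm_nonneg _).trans (hC _ hmem)
  have hcont : ContinuousOn g (Icc 0 hb) := by
    have hL : LipschitzOnWith (Real.toNNReal (C * ((lp - lm) * 2))) g (Icc 0 hb) := by
      refine LipschitzOnWith.of_dist_le_mul fun x hx y hy => ?_
      rw [Real.coe_toNNReal _ (by
        have : 0 < lp - lm := by linarith
        positivity), Real.dist_eq, Real.dist_eq]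
      rcases le_total x y with hxy | hxy
      · have := hlip x y hx.1 hxy hy.2
        rw [abs_sub_comm, abs_sub_comm x y, abs_of_nonneg (by linarith : (0:ℝ) ≤ y - x)]
        nlinarith
      · have := hlip y x hy.1 hxy hx.2
        rw [abs_of_nonneg (by linarith : (0:ℝ) ≤ x - y)]
        nlinarith
    exact hL.continuousOn
  have hg0 : g 0 = 0 := by
    have he : rect lm lp 0 = ∅ := by
      ext u
      simp only [rect, Set.mem_ofPred_eq, Set.mem_empty_iff_false, iff_false]
      rintro ⟨_, _, h3⟩
      exact absurd h3 (not_lt.2 (abs_nonneg _))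
    simp only [hg, he, Measure.restrict_empty, integral_zero_measure]
  have hgb : 1 < g hb := by
    have h1 := setIntegral_ge_of_const_le (μ := volume) (s := rect lm lp hb) (f := F) (c := 1 / 4)
      (rect_open _ _ _).measurableSet (hfin hb) (fun u hu => by
        have h2 := hV2 u (hKs (hsub hb le_rfl hu))
        show 1 / 4 ≤ 1 / V u ^ 2
        apply one_div_le_one_div_of_le (by have := h2.1; positivity)
        nlinarith [h2.1, h2.2]) (hFi.mono_set (hsub hb le_rfl))
    rw [hreal hb hb0.le] at h1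
    have h3 : (cR - cL) * hb = 2 := by
      rw [hhb]
      field_simp
    have h4 : (cR - cL) * hb < (lp - lm) * hb := by
      apply mul_lt_mul_of_pos_right _ hb0
      linarith
    have h5 : g hb = ∫ u in rect lm lp hb, F u := rfl
    rw [h5]
    rw [smul_eq_mul] at h1
    linarith
  obtain ⟨h, hh, hgh⟩ := intermediate_value_Ioo hb0.le hcont
    (show (1 : ℝ) ∈ Ioo (g 0) (g hb) from ⟨by rw [hg0]; norm_num, hgb⟩)
  exact ⟨h, hh.1, hh.2.trans hbh, hgh⟩

end H454R3.Noz
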